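import Pool.Agent.Helper96.GU.St

set_option autoImplicit false

/-! Module RDI of project GU (MP_2c90c1_al): removal of a cell from the initial complex. -/

namespace Pool.Agent.Helper62.GU

open Pool.Agent.Helper96.UT hiding StTOP TopV TopE tht Bd VC EC
open Pool.Agent.Helper96.GU

theorem tRDI : StFRE → StREQ → StHOM → StRDI := by
  intro hFRE hREQ hHOM α Z L hGen w hw Ω _ v E C hI u hu huv k hSg
  classical
  have hC' : ∀ x, x ∈ C.erase u ↔ x ∈ C ∧ x ≠ u := fun x => by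
    rw [Finset.mem_erase, and_comm]
  have hCE : CE Z v ⊆ E \ {ed (act u (pre Z.c k)) (Z.c k)} := by
    rintro e ⟨i, rfl⟩
    refine ⟨hI.cpx.sub v hI.mem ⟨i, rfl⟩, ?_⟩
    intro h
    exact huv (hFRE α Z Ω C u k hSg v hI.mem i h).2.symm
  have hpath : ∀ h ∈ (L : Set (FreeGroup α)), ∃ q : List (α × Bool),
      InE (E \ {ed (act u (pre Z.c k)) (Z.c k)}) v q ∧ FreeGroup.mk q = h := by
    intro h hh
    obtain ⟨q, hq, hqh⟩ := hGen h hh
    have h1 := InG_InE (Z := Z) hI.stab hq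
    have h2 : act v (1 : FreeGroup α) = v := by
      change (1 : FreeGroup α)⁻¹ • v = v
      rw [inv_one, one_smul]
    rw [h2] at h1
    exact ⟨q, InE_mono hCE h1, hqh⟩
  obtain ⟨hcpx, hhh⟩ := hREQ α Z Ω E C hI.cpx u hu k hSg (C.erase u) hC'
  refine ⟨E \ {ed (act u (pre Z.c k)) (Z.c k)}, C.erase u, Finset.card_erase_lt_of_mem hu, ?_⟩
  refine ⟨hI.stab, (hC' v).2 ⟨hI.mem, fun h => huv h.symm⟩, hcpx, ?_, hhh v _ hI.hh hpath⟩
  obtain ⟨q, hq, rfl⟩ := hpath w hw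
  exact hHOM α Z Ω E C hI.cpx u hu k hSg (C.erase u) hC' v q hq hI.nc

end Pool.Agent.Helper62.GU
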